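import Pool.Agent.helper84.LQ.SpecH

/-!
# Row lq:UZQ (MP_07c750_an): measurability and length of the leaf sets with windows at all scales
-/

open scoped MatrixGroups ContDiff Topology UpperHalfPlane ComplexConjugate
open UpperHalfPlane MeasureTheory Filter Set

set_option autoImplicit false

namespace Pool.Agent.LP

open Pool.Agent.RS
open Pool.Agent.MS (bq BB BA SF pf)
open Pool.Agent.HV (FW)
open Pool.Agent.EN (XG MG mkX mkM fl pr)
open Pool.Agent.ER (Low LowJ)

noncomputable section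

theorem UZQ_fin (S : Set ℝ) (v r : ℝ) (h : ∀ x ∈ S, |x - v| ≤ r) : volume S ≠ ⊤ := by
  refine ne_top_of_le_ne_top (measure_Icc_lt_top (a := v - r) (b := v + r)).ne (measure_mono ?_)
  intro x hx
  obtain ⟨h1, h2⟩ := abs_le.1 (h x hx)
  exact ⟨by linarith, by linarith⟩

theorem UZQ_proof (hBWM : HV.BWM_stmt) (hYVO : IR.YVO_stmt) (hGLC : RS.GLC_stmt) : UZQ_stmt := by
  intro Γ hΓ
  obtain ⟨C', hC', hY⟩ := hYVO Γ hΓ
  obtain ⟨-, -, -, -, -, hlM, -⟩ := hGLC
  refine ⟨max C' 1, le_max_right _ _, ?_⟩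
  intro b G m A z hb hb1
  refine ⟨?_, ?_, ?_⟩
  · have c1 : Continuous fun u : ℝ => z * lM u := continuous_const.mul hlM
    have e : UW Γ A b G m z = {u : ℝ | |u| ≤ 2} ∩ ⋂ j : ℕ, ⋂ (_ : 1 ≤ j), ⋂ (_ : j ≤ G), {u : ℝ | z * lM u * aM (((G : ℝ) - j) * m) ∈ FW Γ (A j) b (Real.exp (-(j * m)))} := by
      ext u
      simp only [UW, mem_inter_iff, mem_iInter, mem_setOf_eq]
    rw [e]
    refine (measurableSet_le (by fun_prop) measurable_const).inter (MeasurableSet.iInter fun j => MeasurableSet.iInter fun _ => MeasurableSet.iInter fun _ => ?_)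
    have c2 : Continuous fun u : ℝ => z * lM u * aM (((G : ℝ) - j) * m) := c1.mul continuous_const
    exact c2.measurable (hBWM Γ (A j) b _ hΓ).2.1
  · intro u hu
    exact abs_le.1 hu.1
  · intro j hj1 hj2 y
    have h1 := hY b (j * m) (((G : ℝ) - j) * m) y (A j) z hb hb1 (by positivity)
    have e : ((G : ℝ) - j) * m + j * m = G * m := by ring
    rw [e] at h1
    refine le_trans ?_ (h1.trans (mul_le_mul_of_nonneg_right (mul_le_mul_of_nonneg_right (le_max_left _ _) (Nat.cast_nonneg _)) (Real.exp_pos _).le))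
    refine measureReal_mono ?_ ?_
    · rintro u ⟨⟨-, hu3⟩, hu4, hu5⟩
      refine ⟨?_, hu3 j hj1 hj2⟩
      have := Real.exp_pos (-(((G : ℝ) - j) * m))
      rw [abs_of_nonneg (by linarith)]
      linarith
    · exact UZQ_fin _ y (4 * Real.exp (-(((G : ℝ) - j) * m))) fun x hx => hx.1

end

end Pool.Agent.LP
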